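import Mathlib
import Pool.Agent.Helper15.Chow.Top

/-!
# Murre's conjecture (D) in high codimension, zero-cycles, and phantoms

Let `X` be a smooth projective variety of dimension `d` with a Chow-Künneth decomposition.

* All Chow-Künneth decompositions of `X` satisfy (D) for zero-cycles (`i = d`) if and only if all
  homologically trivial idempotent correspondences which factor through a piece of a
  Chow-Künneth decomposition of `X` act as zero on `CH^d(X)`.
* More generally, if there is a projector `E j` with cohomology `H^j(X)` and only nilpotent
  homologically trivial endomorphisms for every `2 i ≤ j < 2 d`, then all Chow-Künneth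
  decompositions of `X` satisfy (D) in codimension `i` if and only if the `E j` kill the
  homologically trivial classes and the idempotents above act as zero on `CH^i(X)`.
* If `Δ - π m` has only nilpotent homologically trivial endomorphisms for a Chow-Künneth
  decomposition `π` (surfaces, `m = 2`), every homologically trivial idempotent factors through a
  piece of a Chow-Künneth decomposition.
-/

universe u v w

open CategoryTheory AlgebraicGeometry Limits

namespace Pool.Agent.Helper15.Withdrawn.PhantomsInPieces

open Pool.Agent.Helper10 Pool.Agent.Helper10.SmProjVar Pool.Agent.Helper47.Chow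

theorem result {k : Type u} [Field k] {K : Type v} [Field K] [CharZero K]
    {W : WeilCohomology.{u, v, w} k K} (C : ChowTheory W) (X : SmProjVar k)
    (hX : ∃ π, C.IsCK X π) (i : ℕ) (E : ℕ → CH (X.prod X))
    (hE : ∀ j, 2 * i ≤ j → j < 2 * X.dim → C.IsNilPiece X j (E j)) :
    ((∀ π, C.IsCK X π → C.MurreD X π i) ↔
      (∀ j, 2 * i ≤ j → j < 2 * X.dim → ∀ a ∈ CHi X i, C.ops.cl X a = 0 → C.act (E j) a = 0) ∧
      ∀ φ, C.IsPiecePhantom X φ → ∀ a ∈ CHi X i, C.act φ a = 0) ∧
    ∀ π m, C.IsCK X π → C.NilOutside X π m → ∀ φ, C.IsPhantom X φ → C.IsPiecePhantom X φ :=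
  ⟨top_pieces X i E hE hX, fun _ _ hπ hnil _ hφ => isPiecePhantom_of_nilOutside X hπ hnil hφ⟩

end Pool.Agent.Helper15.Withdrawn.PhantomsInPieces
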